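import Pool.Agent.TH279.GR.Defs

/-!
# GR-G3: monotonicity of the Hilbert function of a relevant prime, irrelevant ideals
-/

set_option autoImplicit false

open MvPolynomial Module Filter Topology

namespace Pool.Agent.TH279.GR.G3

open Pool.Agent.TH279.GR

variable {a b : ℕ}

theorem bh_mul' {u v u' v' : ℕ} {f g : Co a b} (hf : f ∈ bh a b u v) (hg : g ∈ bh a b u' v') :
    f * g ∈ bh a b (u + u') (v + v') := by
  have h1 : IsWeightedHomogeneous (wt a b) f (u, v) := hf
  have h2 : IsWeightedHomogeneous (wt a b) g (u', v') := hg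
  exact h1.mul h2

theorem X_mem (i : Ix a b) : (X i : Co a b) ∈ bh a b (wt a b i).1 (wt a b i).2 :=
  isWeightedHomogeneous_X ℂ (wt a b) i

theorem X_inl_mem' (i : Fin (a + 1)) : (X (Sum.inl i) : Co a b) ∈ bh a b 1 0 :=
  X_mem (Sum.inl i)

theorem X_inr_mem' (j : Fin (b + 1)) : (X (Sum.inr j) : Co a b) ∈ bh a b 0 1 :=
  X_mem (Sum.inr j)

/-- the total degree is the sum of the two degrees -/
theorem weight_degree (d : Ix a b →₀ ℕ) :
    (Finsupp.weight (wt a b) d).1 + (Finsupp.weight (wt a b) d).2 = d.degree := by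
  induction d using Finsupp.induction_linear with
  | zero => simp
  | add f g hf hg =>
    rw [map_add, map_add, ← hf, ← hg]
    simp only [Prod.fst_add, Prod.snd_add]
    ring
  | single i n =>
    rw [Finsupp.weight_single, Finsupp.degree_single]
    rcases i with i | i <;> simp [wt]

theorem finite_bh' (u v : ℕ) : FiniteDimensional ℂ (bh a b u v) := by
  have hfin : {d : Ix a b →₀ ℕ | Finsupp.weight (wt a b) d = (u, v)}.Finite := by
    refine (Finsupp.finite_of_degree_le (σ := Ix a b) (u + v)).subset fun d hd => ?_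
    have h1 : Finsupp.weight (wt a b) d = (u, v) := hd
    have h2 := weight_degree d
    rw [h1] at h2
    exact h2.symm.le
  have := hfin.to_subtype
  rw [bh, weightedHomogeneousSubmodule_eq_finsupp_supported]
  exact Module.Finite.of_basis
    (basisRestrictSupport ℂ {d : Ix a b →₀ ℕ | Finsupp.weight (wt a b) d = (u, v)})

/-- a monomial of positive first degree is divisible by a variable of the first kind -/
theorem exists_inl {d : Ix a b →₀ ℕ} {u v : ℕ} (h : Finsupp.weight (wt a b) d = (u + 1, v)) :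
    ∃ i : Fin (a + 1), d (Sum.inl i) ≠ 0 := by
  by_contra hc
  push Not at hc
  have h1 : (Finsupp.weight (wt a b) d).1 = 0 := by
    rw [Finsupp.weight_apply, Finsupp.sum, Prod.fst_sum]
    refine Finset.sum_eq_zero fun i _ => ?_
    rcases i with i | i
    · rw [hc i]
      simp
    · simp [wt]
  rw [h] at h1
  simp at h1

theorem exists_inr {d : Ix a b →₀ ℕ} {u v : ℕ} (h : Finsupp.weight (wt a b) d = (u, v + 1)) :
    ∃ i : Fin (b + 1), d (Sum.inr i) ≠ 0 := by
  by_contra hc
  push Not at hc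
  have h1 : (Finsupp.weight (wt a b) d).2 = 0 := by
    rw [Finsupp.weight_apply, Finsupp.sum, Prod.snd_sum]
    refine Finset.sum_eq_zero fun i _ => ?_
    rcases i with i | i
    · simp [wt]
    · rw [hc i]
      simp
  rw [h] at h1
  simp at h1

theorem monomial_eq {d : Ix a b →₀ ℕ} {i : Ix a b} (hi : d i ≠ 0) (c : ℂ) :
    (monomial d c : Co a b) = X i * monomial (d - Finsupp.single i 1) c := by
  rw [X, monomial_mul, one_mul, add_comm, Finsupp.sub_add_single_one_cancel hi]

theorem weight_sub {d : Ix a b →₀ ℕ} {i : Ix a b} (hi : d i ≠ 0) :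
    Finsupp.weight (wt a b) (d - Finsupp.single i 1) + wt a b i = Finsupp.weight (wt a b) d := by
  conv_rhs => rw [← Finsupp.sub_add_single_one_cancel hi]
  rw [map_add, Finsupp.weight_single, one_smul]

theorem bh_succ_le {Q : Ideal (Co a b)} {u v : ℕ}
    (h : ∀ i : Fin (a + 1), ∀ g ∈ bh a b u v, X (Sum.inl i) * g ∈ Q) :
    bh a b (u + 1) v ≤ Q.restrictScalars ℂ := by
  intro f hf
  have hf' : IsWeightedHomogeneous (wt a b) f (u + 1, v) := hf
  change f ∈ Q
  rw [f.as_sum]
  refine Q.sum_mem fun d hd => ?_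
  have hd' := hf' (mem_support_iff.1 hd)
  obtain ⟨i, hi⟩ := exists_inl hd'
  rw [monomial_eq hi]
  apply h i
  have h1 := weight_sub hi
  rw [hd'] at h1
  refine isWeightedHomogeneous_monomial _ _ _ ?_
  have h2 := congrArg Prod.fst h1
  have h3 := congrArg Prod.snd h1
  simp only [Prod.fst_add, Prod.snd_add, wt, Sum.elim_inl] at h2 h3
  refine Prod.ext ?_ ?_
  · exact Nat.add_right_cancel h2
  · simpa [wt] using h3

theorem bh_succ_le' {Q : Ideal (Co a b)} {u v : ℕ}
    (h : ∀ i : Fin (b + 1), ∀ g ∈ bh a b u v, X (Sum.inr i) * g ∈ Q) :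
    bh a b u (v + 1) ≤ Q.restrictScalars ℂ := by
  intro f hf
  have hf' : IsWeightedHomogeneous (wt a b) f (u, v + 1) := hf
  change f ∈ Q
  rw [f.as_sum]
  refine Q.sum_mem fun d hd => ?_
  have hd' := hf' (mem_support_iff.1 hd)
  obtain ⟨i, hi⟩ := exists_inr hd'
  rw [monomial_eq hi]
  apply h i
  have h1 := weight_sub hi
  rw [hd'] at h1
  refine isWeightedHomogeneous_monomial _ _ _ ?_
  have h2 := congrArg Prod.fst h1
  have h3 := congrArg Prod.snd h1
  simp only [Prod.fst_add, Prod.snd_add, wt, Sum.elim_inr] at h2 h3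
  refine Prod.ext ?_ ?_
  · simpa [wt] using h2
  · exact Nat.add_right_cancel h3

theorem bh_le_add {Q : Ideal (Co a b)} {u v : ℕ} (h : bh a b u v ≤ Q.restrictScalars ℂ)
    (s t : ℕ) : bh a b (u + s) (v + t) ≤ Q.restrictScalars ℂ := by
  induction s with
  | zero =>
    induction t with
    | zero => exact h
    | succ t ih => exact bh_succ_le' fun i g hg => Q.mul_mem_left _ (ih hg)
  | succ s ih => exact bh_succ_le fun i g hg => Q.mul_mem_left _ (ih hg)

theorem exists_inl_notMem {Q : Ideal (Co a b)} (hr : Rel Q) :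
    ∃ i : Fin (a + 1), (X (Sum.inl i) : Co a b) ∉ Q := by
  by_contra hc
  push Not at hc
  exact hr 1 0 (bh_succ_le fun i g _ => Q.mul_mem_right _ (hc i))

theorem exists_inr_notMem {Q : Ideal (Co a b)} (hr : Rel Q) :
    ∃ j : Fin (b + 1), (X (Sum.inr j) : Co a b) ∉ Q := by
  by_contra hc
  push Not at hc
  exact hr 0 1 (bh_succ_le' fun i g _ => Q.mul_mem_right _ (hc i))

/-- multiplication by a form outside of a prime -/
theorem hf_le_add {Q : Ideal (Co a b)} (hQ : Q.IsPrime) {x : Co a b} {c e : ℕ}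
    (hx : x ∈ bh a b c e) (hxQ : x ∉ Q) (u v : ℕ) : hf Q u v ≤ hf Q (u + c) (v + e) := by
  have hinj : Function.Injective (LinearMap.mulLeft ℂ (Ideal.Quotient.mk Q x)) := by
    have : IsDomain (Co a b ⧸ Q) := Ideal.Quotient.isDomain Q
    exact mul_right_injective₀ fun h => hxQ (Ideal.Quotient.eq_zero_iff_mem.1 h)
  have hfin : FiniteDimensional ℂ (bh a b (u + c) (v + e)) := finite_bh' _ _
  unfold hf
  rw [(Submodule.equivMapOfInjective _ hinj
    ((bh a b u v).map (Ideal.Quotient.mkₐ ℂ Q).toLinearMap)).finrank_eq]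
  refine Submodule.finrank_mono ?_
  rintro _ ⟨_, ⟨g, hg, rfl⟩, rfl⟩
  refine ⟨x * g, ?_, ?_⟩
  · rw [add_comm u, add_comm v]
    exact bh_mul' hx hg
  · simp

theorem hf_mono {Q : Ideal (Co a b)} (hQ : Q.IsPrime) (hh : BHom Q) (hr : Rel Q) {u v u' v' : ℕ}
    (hu : u ≤ u') (hv : v ≤ v') : hf Q u v ≤ hf Q u' v' := by
  obtain ⟨i, hi⟩ := exists_inl_notMem hr
  obtain ⟨j, hj⟩ := exists_inr_notMem hr
  have h1 : hf Q u v ≤ hf Q u' v := by
    induction u', hu using Nat.le_induction with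
    | base => exact le_rfl
    | succ n _ ih => exact ih.trans (hf_le_add hQ (X_inl_mem' i) hi n v)
  refine h1.trans ?_
  induction v', hv using Nat.le_induction with
  | base => exact le_rfl
  | succ n _ ih => exact ih.trans (hf_le_add hQ (X_inr_mem' j) hj u' n)

theorem hf_irrel {Q : Ideal (Co a b)} (hr : ¬ Rel Q) :
    ∃ n0 : ℕ, ∀ u v : ℕ, n0 ≤ u → n0 ≤ v → hf Q u v = 0 := by
  unfold Rel at hr
  push Not at hr
  obtain ⟨u0, v0, h0⟩ := hr
  refine ⟨max u0 v0, fun u v hu hv => ?_⟩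
  obtain ⟨s, rfl⟩ := Nat.exists_eq_add_of_le ((le_max_left _ _).trans hu)
  obtain ⟨t, rfl⟩ := Nat.exists_eq_add_of_le ((le_max_right _ _).trans hv)
  have h1 := bh_le_add h0 s t
  have h2 : (bh a b (u0 + s) (v0 + t)).map (Ideal.Quotient.mkₐ ℂ Q).toLinearMap = ⊥ := by
    rw [eq_bot_iff]
    rintro _ ⟨g, hg, rfl⟩
    rw [Submodule.mem_bot]
    exact Ideal.Quotient.eq_zero_iff_mem.2 (h1 hg)
  unfold hf
  rw [h2, finrank_bot]

end Pool.Agent.TH279.GR.G3
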